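import Pool.Agent.Helper84.OB.Stmts

/-!
# Row SD of the sheet OB
-/

set_option autoImplicit false

universe u

open Set Pool.Agent.Helper84.BT Pool.Agent.Helper84.OB
open scoped Matroid

namespace Pool.Agent.Helper96.OB

theorem st_SD (hEX : ST_EX.{u}) (hCI : ST_CI.{u}) (hWZ : ST_WZ.{u}) (hDP : ST_DP.{u})
    (hHY : ST_HY.{u}) : ST_SD.{u} := by
  intro α _ M X Y hT hTd hP
  obtain ⟨e, heX, heY, heF⟩ := hEX α M X Y hT hP
  have hXg : X ⊆ M.E := hP.hX.subset_ground
  have hYg : Y ⊆ M.E := hP.hY.subset_ground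
  have hK : M.IsFlat (X ∩ Y) := by
    rw [Matroid.isFlat_iff_closure_eq]
    apply Set.Subset.antisymm _ (M.subset_closure _ (inter_subset_left.trans hXg))
    apply subset_inter
    · exact (M.closure_subset_closure inter_subset_left).trans hP.hX.1.closure.subset
    · exact (M.closure_subset_closure inter_subset_right).trans hP.hY.1.closure.subset
  obtain ⟨C, hCX, hCK, hC1, hC2, hC3⟩ := hCI α M X (X ∩ Y) e hP.hX hK inter_subset_left heX
    (fun h => heY h.2) heF
  obtain ⟨w, hwY, hw⟩ := hWZ α M X Y hTd hP.hX hP.hY hP.pos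
  have hCg : C ⊆ M.E := hCX.trans hXg
  -- `X ⊆ closure (C ∪ Y)`
  have h1 : X ⊆ M.closure (C ∪ (X ∩ Y)) :=
    subset_closure_of_rk M (union_subset hCX inter_subset_left) hXg hC1.ge
  have h2 : X ⊆ M.closure (C ∪ Y) :=
    h1.trans (M.closure_subset_closure (union_subset_union_right C inter_subset_right))
  have h3 : X ∪ Y ⊆ M.closure (C ∪ Y) :=
    union_subset h2 (subset_union_right.trans (M.subset_closure (C ∪ Y) (union_subset hCg hYg)))
  have h4 : M.closure (X ∪ Y) ⊆ M.closure (C ∪ Y) :=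
    M.closure_subset_closure_of_subset_closure h3
  have h5 : rk M (C ∪ Y) = rk M (X ∪ Y) := by
    apply le_antisymm (rk_mono M (union_subset_union_left Y hCX))
    rw [← rk_closure M (C ∪ Y)]
    exact rk_mono M h3
  -- the largest `W`
  have hWc : IsCyclicFlat M (M.closure (X ∪ Y)) :=
    (IsCyclic.union hP.hX.isCyclic hP.hY.isCyclic).isCyclicFlat_closure
  have hXYg : X ∪ Y ⊆ M.E := union_subset hXg hYg
  have hwcl : w ∈ M.closure (C ∪ Y) := by
    apply h4
    apply hw _ hWc (subset_union_right.trans (M.subset_closure (X ∪ Y) hXYg))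
    rw [rk_closure, inter_eq_left.2 (subset_union_left.trans (M.subset_closure (X ∪ Y) hXYg))]
    omega
  obtain ⟨H, hHC, hH1, hH2, hH3⟩ := hHY α M Y C w hP.hY.1 hCg hwY hwcl (by
    intro O hO x hx hxO
    obtain ⟨W, hW1, hW2, hW3, hW4⟩ := hDP α M X Y C O x hP hCX hCK hC1 hC2 hC3 hO hx hxO
    exact hW3 (hw W hW1 hW2 hW4))
  refine ⟨C, H, hHC, hCX, ?_, hC1, hC2, hC3, hH1, ?_, ?_⟩
  · rw [Set.disjoint_left] at hCK ⊢
    intro a ha haY
    exact hCK ha ⟨hCX ha, haY⟩
  · rw [hH2, h5]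
  · intro c hc
    rw [hH3 c hc, h5]

end Pool.Agent.Helper96.OB
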